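import Mathlib
import Pool.Agent.V11172.RegMain

/-!
# 2-regularity of monochromatic progression lengths (MP_6350a9)

For every pattern `v`:
* the sequence `A_v(0, d)` is 2-regular if and only if `v` consists of zeros only;
* the sequence `A_v(d)` is never 2-regular.
-/

namespace Pool.Agent.Results.MP_6350a9_co.TwoRegularity

open Finset Pool.Agent.V11172.Reg

/-- the canonical binary expansion of `n`, most significant digit first (`0` has the empty
expansion) -/
def bin (n : ℕ) : List Bool := (Nat.bits n).reverse

/-- the number of zeros at the beginning of the pattern -/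
def lead (v : List Bool) : ℕ := (v.takeWhile fun b => !b).length

/-- the word in which the occurrences of `v` are counted: the expansion of `n`, padded on the left
with as many zeros as `v` begins with, if `v` contains a `1` -/
def padded (v : List Bool) (n : ℕ) : List Bool :=
  if true ∈ v then List.replicate (lead v) false ++ bin n else bin n

/-- the number of positions at which `v` occurs as a factor of `w` -/
def occ (v w : List Bool) : ℕ :=
  ((range w.length).filter fun i => (w.drop i).take v.length = v).card

/-- `e_v(n)` -/
def e (v : List Bool) (n : ℕ) : ℕ := occ v (padded v n)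

/-- `A_v(n, d) = inf {l ≥ 1 : e_v(n + l d) ≢ e_v(n) mod 2}` -/
noncomputable def A (v : List Bool) (n d : ℕ) : ℕ :=
  sInf {l : ℕ | 1 ≤ l ∧ e v (n + l * d) % 2 ≠ e v n % 2}

/-- `A_v(d) = sup_n A_v(n, d)` -/
noncomputable def Asup (v : List Bool) (d : ℕ) : ℕ := sSup (Set.range fun n => A v n d)

/-- a sequence `(a(d))_{d ≥ 0}` of integers is 2-regular if the `ℤ`-module spanned by the
subsequences `(a(2 ^ k * d + r))_{d ≥ 0}`, `0 ≤ r < 2 ^ k`, is finitely generated -/
def IsTwoRegular (a : ℕ → ℤ) : Prop :=
  (Submodule.span ℤ {s : ℕ → ℤ | ∃ k r, r < 2 ^ k ∧ s = fun d => a (2 ^ k * d + r)}).FG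

/-! ### The recursion for the pattern count -/

/-- the value of a word, least significant digit first -/
def ofb : List Bool → ℕ
  | [] => 0
  | b :: l => b.toNat + 2 * ofb l

lemma ofb_lt : ∀ l : List Bool, ofb l < 2 ^ l.length
  | [] => by simp [ofb]
  | b :: l => by
    have := ofb_lt l
    have hb : b.toNat ≤ 1 := Bool.toNat_le b
    rw [ofb, List.length_cons, pow_succ]
    omega

lemma ofb_inj : ∀ l l' : List Bool, l.length = l'.length → ofb l = ofb l' → l = l'
  | [], [], _, _ => rfl
  | [], b :: l, h, _ => by simp at h
  | b :: l, [], h, _ => by simp at h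
  | b :: l, b' :: l', h, h2 => by
    rw [ofb, ofb] at h2
    have hb : b.toNat ≤ 1 := Bool.toNat_le b
    have hb' : b'.toNat ≤ 1 := Bool.toNat_le b'
    have h3 : b.toNat = b'.toNat := by omega
    have h4 : b = b' := by
      cases b <;> cases b' <;> simp_all
    rw [h4, ofb_inj l l' (by simpa using h) (by omega)]

lemma ofb_take : ∀ (k : ℕ) (l : List Bool), ofb (l.take k) = ofb l % 2 ^ k
  | 0, l => by simp [ofb, Nat.mod_one]
  | k + 1, [] => by simp [ofb]
  | k + 1, b :: l => by
    have ih := ofb_take k l
    rw [List.take_succ_cons, ofb, ih, ofb]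
    have hb : b.toNat ≤ 1 := Bool.toNat_le b
    rw [pow_succ, mul_comm (2 ^ k) 2, Nat.mod_mul]
    have e1 : (b.toNat + 2 * ofb l) % 2 = b.toNat := by omega
    have e2 : (b.toNat + 2 * ofb l) / 2 = ofb l := by omega
    rw [e1, e2]

lemma ofb_zeros (i : ℕ) : ofb (List.replicate i false) = 0 := by
  induction i with
  | zero => rfl
  | succ i ih => rw [List.replicate_succ, ofb, ih]; rfl

lemma ofb_append (l l' : List Bool) : ofb (l ++ l') = ofb l + 2 ^ l.length * ofb l' := by
  induction l with
  | nil => simp [ofb]
  | cons b l ih =>
    rw [List.cons_append, ofb, ih, ofb, List.length_cons, pow_succ]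
    ring

lemma bits_cons (n : ℕ) (hn : 1 ≤ n) : Nat.bits n = n.bodd :: Nat.bits (n / 2) := by
  have h1 := Nat.bits_append_bit n.div2 n.bodd (by
    intro h
    have h2 := Nat.bit_bodd_div2 n
    rw [h] at h2
    rcases hb : n.bodd with _ | _
    · rw [hb] at h2
      simp at h2
      omega
    · rfl)
  rw [Nat.bit_bodd_div2, Nat.div2_val] at h1
  exact h1

lemma ofb_bits (n : ℕ) : ofb (Nat.bits n) = n := by
  induction n using Nat.strong_induction_on with
  | _ n ih =>
    rcases Nat.eq_zero_or_pos n with h | h
    · subst h; simp [ofb]
    · rw [bits_cons n h, ofb, ih (n / 2) (by omega)]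
      have h2 : n.bodd.toNat = n % 2 := by rw [Nat.mod_two_of_bodd]
      omega

lemma occ_concat (v w : List Bool) (c : Bool) (hv : v ≠ []) :
    occ v (w ++ [c]) = occ v w + if v.length ≤ w.length + 1 ∧
      (w ++ [c]).drop (w.length + 1 - v.length) = v then 1 else 0 := by
  have hk : 1 ≤ v.length := List.length_pos_iff.2 hv
  unfold occ
  have hlen : (w ++ [c]).length = w.length + 1 := by simp
  rw [hlen]
  -- positions of both kinds
  have hsplit : ((range (w.length + 1)).filter fun i => ((w ++ [c]).drop i).take v.length = v) =
      ((range w.length).filter fun i => (w.drop i).take v.length = v) ∪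
      (if v.length ≤ w.length + 1 ∧ (w ++ [c]).drop (w.length + 1 - v.length) = v then
        {w.length + 1 - v.length} else ∅) := by
    ext i
    simp only [mem_union, mem_filter, mem_range]
    rcases Nat.lt_trichotomy (i + v.length) (w.length + 1) with h | h | h
    · have e1 : ((w ++ [c]).drop i).take v.length = (w.drop i).take v.length := by
        rw [List.drop_append_of_le_length (by omega), List.take_append_of_le_length (by
          rw [List.length_drop]; omega)]
      rw [e1]
      constructor
      · rintro ⟨_, h2⟩
        exact Or.inl ⟨by omega, h2⟩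
      · rintro (⟨h1, h2⟩ | h2)
        · exact ⟨by omega, h2⟩
        · split_ifs at h2 with h3
          · rw [mem_singleton] at h2
            omega
          · simp at h2
    · have e1 : ((w ++ [c]).drop i).take v.length = (w ++ [c]).drop i := by
        apply List.take_of_length_le
        rw [List.length_drop, hlen]
        omega
      have e2 : i = w.length + 1 - v.length := by omega
      have e3 : (w.drop i).take v.length ≠ v := by
        intro h3
        have := congrArg List.length h3
        rw [List.length_take, List.length_drop] at this
        omega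
      rw [e1]
      constructor
      · rintro ⟨_, h2⟩
        right
        rw [if_pos ⟨by omega, by rw [← e2]; exact h2⟩, mem_singleton]
        exact e2
      · rintro (⟨h1, h2⟩ | h2)
        · exact absurd h2 e3
        · split_ifs at h2 with h3
          · refine ⟨by omega, ?_⟩
            rw [e2]
            exact h3.2
          · simp at h2
    · constructor
      · rintro ⟨_, h2⟩
        exfalso
        have := congrArg List.length h2
        rw [List.length_take, List.length_drop, hlen] at this
        omega
      · rintro (⟨h1, h2⟩ | h2)
        · exfalso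
          have := congrArg List.length h2
          rw [List.length_take, List.length_drop] at this
          omega
        · split_ifs at h2 with h3
          · rw [mem_singleton] at h2
            omega
          · simp at h2
  rw [hsplit, card_union_of_disjoint]
  · congr 1
    split_ifs <;> simp
  · rw [disjoint_left]
    intro i hi hi2
    rw [mem_filter, mem_range] at hi
    split_ifs at hi2 with h3
    · rw [mem_singleton] at hi2
      have := congrArg List.length hi.2
      rw [List.length_take, List.length_drop] at this
      omega
    · simp at hi2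

lemma lead_decomp : ∀ v : List Bool, true ∈ v →
    ∃ t, v = List.replicate (lead v) false ++ true :: t
  | [], h => by simp at h
  | true :: t, _ => ⟨t, by simp [lead]⟩
  | false :: t, h => by
    obtain ⟨t', ht⟩ := lead_decomp t (by simpa using h)
    refine ⟨t', ?_⟩
    have : lead (false :: t) = lead t + 1 := by simp [lead]
    rw [this, List.replicate_succ, List.cons_append, ← ht]

/-- the value of the pattern -/
def val (v : List Bool) : ℕ := ofb v.reverse

lemma val_ge (v : List Bool) (h : true ∈ v) : 2 ^ (v.length - 1 - lead v) ≤ val v := by
  obtain ⟨t, ht⟩ := lead_decomp v h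
  have hl : v.length = lead v + (t.length + 1) := by
    conv_lhs => rw [ht]
    simp
  have e1 : v.reverse = t.reverse ++ (true :: List.replicate (lead v) false) := by
    conv_lhs => rw [ht]
    simp
  unfold val
  rw [e1, ofb_append, ofb, ofb_zeros, List.length_reverse,
    show v.length - 1 - lead v = t.length by omega]
  simp

lemma val_eq_zero_iff (v : List Bool) : val v = 0 ↔ true ∉ v := by
  constructor
  · intro h h2
    have := val_ge v h2
    have h3 : 0 < 2 ^ (v.length - 1 - lead v) := by positivity
    omega
  · intro h
    have : v = List.replicate v.length false := by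
      rw [List.eq_replicate_iff]
      refine ⟨rfl, fun b hb => ?_⟩
      cases b with
      | false => rfl
      | true => exact absurd hb h
    unfold val
    rw [this, List.reverse_replicate, ofb_zeros]

lemma val_lt (v : List Bool) : val v < 2 ^ v.length := by
  have := ofb_lt v.reverse
  rwa [List.length_reverse] at this

lemma padded_concat (v : List Bool) (n : ℕ) (hn : 1 ≤ n) :
    padded v n = padded v (n / 2) ++ [n.bodd] := by
  unfold padded bin
  rw [bits_cons n hn, List.reverse_cons]
  split_ifs <;> simp

/-- the last window -/
lemma last_window (v : List Bool) (hv : v ≠ []) (n : ℕ) (hn : 1 ≤ n) :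
    (v.length ≤ (padded v n).length ∧ (padded v n).drop ((padded v n).length - v.length) = v) ↔
      n % 2 ^ v.length = val v := by
  -- the reversed word
  obtain ⟨i, hi⟩ : ∃ i, i = if true ∈ v then lead v else 0 := ⟨_, rfl⟩
  have hrev : padded v n = (Nat.bits n ++ List.replicate i false).reverse := by
    unfold padded bin
    rw [List.reverse_append, List.reverse_replicate, hi]
    split_ifs <;> simp
  obtain ⟨R, hR⟩ : ∃ R, R = Nat.bits n ++ List.replicate i false := ⟨_, rfl⟩
  rw [← hR] at hrev
  have hlenR : R.length = (Nat.bits n).length + i := by rw [hR]; simp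
  have hRn : ofb R = n := by rw [hR, ofb_append, ofb_bits, ofb_zeros]; simp
  have hdrop : v.length ≤ R.length → R.reverse.drop (R.length - v.length) =
      (R.take v.length).reverse := by
    intro h
    rw [List.drop_reverse]
    congr 2
    omega
  rw [hrev, List.length_reverse]
  constructor
  · rintro ⟨h1, h2⟩
    rw [hdrop h1] at h2
    have h3 := congrArg List.reverse h2
    rw [List.reverse_reverse] at h3
    rw [← hRn, ← ofb_take, h3]
    rfl
  · intro h
    have hle : v.length ≤ R.length := by
      by_contra hlt
      push Not at hlt
      have hnlt : n < 2 ^ (Nat.bits n).length := by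
        have := ofb_lt (Nat.bits n)
        rwa [ofb_bits] at this
      have hn2 : n < 2 ^ v.length :=
        lt_of_lt_of_le hnlt (Nat.pow_le_pow_right (by norm_num) (by omega))
      rw [Nat.mod_eq_of_lt hn2] at h
      by_cases ht : true ∈ v
      · rw [if_pos ht] at hi
        have h4 := val_ge v ht
        have h5 : 2 ^ (Nat.bits n).length ≤ 2 ^ (v.length - 1 - lead v) :=
          Nat.pow_le_pow_right (by norm_num) (by omega)
        omega
      · have := (val_eq_zero_iff v).2 ht
        omega
    refine ⟨hle, ?_⟩
    rw [hdrop hle]
    have h3 : R.take v.length = v.reverse := by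
      apply ofb_inj
      · rw [List.length_take, List.length_reverse]
        omega
      · rw [ofb_take, hRn, h]
        rfl
    rw [h3, List.reverse_reverse]

lemma e_zero (v : List Bool) (hv : v ≠ []) : e v 0 = 0 := by
  unfold e occ padded bin
  rw [Finset.card_eq_zero, Finset.filter_eq_empty_iff]
  intro i _ h
  by_cases ht : true ∈ v
  · simp only [if_pos ht, Nat.zero_bits, List.reverse_nil, List.append_nil] at h
    rw [← h] at ht
    have h2 := List.mem_of_mem_drop (List.mem_of_mem_take ht)
    rw [List.mem_replicate] at h2
    exact absurd h2.2 (by decide)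
  · simp only [if_neg ht, Nat.zero_bits, List.reverse_nil, List.drop_nil, List.take_nil] at h
    exact hv h.symm

lemma e_rec (v : List Bool) (hv : v ≠ []) (n : ℕ) (hn : 1 ≤ n) :
    e v n = e v (n / 2) + if n % 2 ^ v.length = val v then 1 else 0 := by
  unfold e
  have h1 := padded_concat v n hn
  have h2 := last_window v hv n hn
  have h3 : (padded v n).length = (padded v (n / 2)).length + 1 := by rw [h1]; simp
  rw [h3] at h2
  rw [h1] at h2 ⊢
  rw [occ_concat _ _ _ hv]
  congr 1
  apply if_congr h2 rfl rfl

lemma pc (v : List Bool) (hv : v ≠ []) :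
    PC (v.length - 1) (val v) (fun n => ((e v n : ℕ) : ZMod 2)) where
  zero := by simp [e_zero v hv]
  step := by
    intro n hn
    have hk : 1 ≤ v.length := List.length_pos_iff.2 hv
    rw [e_rec v hv n hn, show v.length - 1 + 1 = v.length by omega]
    push_cast
    rfl

lemma A_eq (v : List Bool) (n d : ℕ) : A v n d = Af (fun n => ((e v n : ℕ) : ZMod 2)) n d := by
  unfold A Af
  congr 1
  ext l
  simp only [Set.mem_ofPred_eq]
  rw [Ne, Ne, ZMod.natCast_eq_natCast_iff']

/-- **2-regularity of the progression lengths.**  For every pattern `v` (with `A_v(n, d)` and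
`A_v(d)` finite for every `d ≥ 1`, so that both sequences are well defined): `(A_v(0, d))_{d ≥ 1}`
is 2-regular if and only if `v` contains no `1`, and `(A_v(d))_{d ≥ 1}` is not 2-regular. -/
theorem result : ∀ v : List Bool, v ≠ [] →
    (∀ n d, 1 ≤ d → {l : ℕ | 1 ≤ l ∧ e v (n + l * d) % 2 ≠ e v n % 2}.Nonempty) ∧
    (∀ d, 1 ≤ d → BddAbove (Set.range fun n => A v n d)) ∧
    (IsTwoRegular (fun d => if d = 0 then 0 else (A v 0 d : ℤ)) ↔ true ∉ v) ∧
    ¬ IsTwoRegular (fun d => if d = 0 then 0 else (Asup v d : ℤ)) := by
  intro v hv
  have hk : 1 ≤ v.length := List.length_pos_iff.2 hv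
  have h := pc v hv
  have hV : val v < 2 ^ (v.length - 1 + 1) := by
    rw [show v.length - 1 + 1 = v.length by omega]
    exact val_lt v
  refine ⟨?_, ?_, ?_, ?_⟩
  · intro n d hd
    obtain ⟨l, h1, h2⟩ := Af_nonempty h hV n d hd
    refine ⟨l, h1, ?_⟩
    rw [Ne, ← ZMod.natCast_eq_natCast_iff']
    exact h2
  · intro d hd
    have := Af_bdd h hV d hd
    simp only [A_eq]
    exact this
  · constructor
    · intro hreg htrue
      have hV0 : val v ≠ 0 := fun h0 => (val_eq_zero_iff v).1 h0 htrue
      apply not_reg_zero h hV hV0
      simp only [A_eq] at hreg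
      exact hreg
    · intro htrue
      have hV0 := (val_eq_zero_iff v).2 htrue
      rw [hV0] at h
      have := reg_zero h
      simp only [A_eq]
      exact this
  · intro hreg
    apply not_reg_sup h hV
    simp only [Asup, A_eq] at hreg
    exact hreg

end Pool.Agent.Results.MP_6350a9_co.TwoRegularity
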